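import Mathlib

/-!
# Expansion of the dominant factor
-/

set_option autoImplicit false

open Filter Topology Complex

namespace Pool.Agent.Y833.BE

/-- the mean constant -/
noncomputable def mu : ℝ := 3 - Real.exp 1

/-- the variance constant -/
noncomputable def vv : ℝ := 2 + 2 * Real.exp 1 - Real.exp 1 ^ 2

theorem vv_pos : 0 < vv := by
  have h1 := Real.exp_one_lt_d9
  have h2 := Real.exp_one_gt_d9
  unfold vv
  nlinarith

/-- `exp (i u) - 1` -/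
noncomputable def zz (u : ℝ) : ℂ := Complex.exp ((u : ℂ) * Complex.I) - 1

/-- the correcting factor -/
noncomputable def EE (u : ℝ) : ℂ := Complex.exp ((mu * u : ℝ) * Complex.I - ((vv / 2 * u ^ 2 : ℝ) : ℂ))

/-- the quadratic approximation -/
noncomputable def PP (u : ℝ) : ℂ :=
  1 + (Complex.exp 1 - 3) * zz u + (Complex.exp 1 ^ 2 - 9 / 2 * Complex.exp 1 + 5) * zz u ^ 2

theorem exp3 {x : ℂ} (hx : ‖x‖ ≤ 1) : ‖Complex.exp x - (1 + x + x ^ 2 / 2)‖ ≤ ‖x‖ ^ 3 := by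
  have h := Complex.exp_bound hx (n := 3) (by norm_num)
  have e : ∑ m ∈ Finset.range 3, x ^ m / (m.factorial : ℂ) = 1 + x + x ^ 2 / 2 := by
    simp [Finset.sum_range_succ, Nat.factorial]
  rw [e] at h
  refine h.trans ?_
  have h2 : (((3 : ℕ).succ : ℝ) * (((3 : ℕ).factorial : ℝ) * (3 : ℕ))⁻¹) ≤ 1 := by
    norm_num [Nat.factorial]
  calc ‖x‖ ^ 3 * (((3 : ℕ).succ : ℝ) * (((3 : ℕ).factorial : ℝ) * (3 : ℕ))⁻¹) ≤ ‖x‖ ^ 3 * 1 :=
        mul_le_mul_of_nonneg_left h2 (by positivity)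
    _ = _ := mul_one _

theorem norm_zz_le {u : ℝ} : ‖zz u‖ ≤ |u| := by
  unfold zz
  have h := Real.norm_exp_I_mul_ofReal_sub_one_le (x := u)
  rw [mul_comm] at h
  exact h

theorem norm_EE (u : ℝ) : ‖EE u‖ ≤ 1 := by
  unfold EE
  rw [Complex.norm_exp]
  apply Real.exp_le_one_iff.2
  have h := vv_pos
  have e : ((mu * u : ℝ) * Complex.I - ((vv / 2 * u ^ 2 : ℝ) : ℂ)).re = -(vv / 2 * u ^ 2) := by
    simp [-Complex.ofReal_mul, -Complex.ofReal_pow, -Complex.ofReal_div]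
  rw [e]
  have : 0 ≤ vv / 2 * u ^ 2 := by positivity
  linarith

theorem PE_bound : ∃ C : ℝ, 0 < C ∧ ∀ u : ℝ, |u| ≤ 1 → ‖PP u * EE u - 1‖ ≤ C * |u| ^ 3 := by
  set e : ℂ := Complex.exp 1 with he
  have heR : ((Real.exp 1 : ℝ) : ℂ) = e := by rw [he]; push_cast; rfl
  set a : ℂ := e - 3 with ha
  set b : ℂ := e ^ 2 - 9 / 2 * e + 5 with hb
  set m : ℂ := 3 - e with hm
  set v : ℂ := 2 + 2 * e - e ^ 2 with hv
  have hmR : ((mu : ℝ) : ℂ) = m := by
    unfold mu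
    rw [Complex.ofReal_sub, heR, hm]
    norm_num
  have hvR : ((vv : ℝ) : ℂ) = v := by
    unfold vv
    rw [Complex.ofReal_sub, Complex.ofReal_add, Complex.ofReal_mul, Complex.ofReal_pow, heR, hv]
    norm_num
  have hI : Complex.I ^ 2 = -1 := Complex.I_sq
  let p1 : ℂ := a * Complex.I
  let p2 : ℂ := -a / 2 - b
  let p3 : ℂ := -b * Complex.I
  let p4 : ℂ := b / 4
  let q1 : ℂ := m * Complex.I
  let q2 : ℂ := -v / 2 - m ^ 2 / 2
  let q3 : ℂ := -(m * v * Complex.I / 2)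
  let q4 : ℂ := v ^ 2 / 8
  let Q : ℝ → ℂ := fun u => (p3 + q3 + p1 * q2 + p2 * q1) +
    (p4 + q4 + p1 * q3 + p3 * q1 + p2 * q2) * u + (p1 * q4 + p4 * q1 + p2 * q3 + p3 * q2) * u ^ 2 +
    (p2 * q4 + p4 * q2 + p3 * q3) * u ^ 3 + (p3 * q4 + p4 * q3) * u ^ 4 + p4 * q4 * u ^ 5
  have hQc : Continuous Q := by fun_prop
  obtain ⟨M, hM⟩ := (isCompact_Icc (a := (-1 : ℝ)) (b := 1)).exists_bound_of_continuousOn
    hQc.continuousOn
  let W : ℝ → ℂ := fun u => (mu * u : ℝ) * Complex.I - ((vv / 2 * u ^ 2 : ℝ) : ℂ)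
  have hWc : Continuous W := by fun_prop
  have hW : ∀ u : ℝ, |u| ≤ 1 → ‖W u‖ ≤ |u| := by
    intro u hu
    have h1 := Real.exp_one_lt_d9
    have h2 := Real.exp_one_gt_d9
    have hmu : |mu| ≤ 1 / 2 := by
      rw [abs_le]
      unfold mu
      constructor <;> linarith
    have hvv : |vv / 2| ≤ 1 / 2 := by
      rw [abs_le]
      unfold vv
      constructor <;> nlinarith
    calc ‖W u‖ ≤ ‖((mu * u : ℝ) : ℂ) * Complex.I‖ + ‖((vv / 2 * u ^ 2 : ℝ) : ℂ)‖ := norm_sub_le _ _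
      _ = |mu| * |u| + |vv / 2| * |u| ^ 2 := by
          rw [norm_mul, Complex.norm_I, mul_one, Complex.norm_real, Complex.norm_real,
            Real.norm_eq_abs, Real.norm_eq_abs, abs_mul, abs_mul, abs_pow]
      _ ≤ 1 / 2 * |u| + 1 / 2 * |u| := by
          have h3 : |u| ^ 2 ≤ |u| := by nlinarith [abs_nonneg u]
          have h4 := abs_nonneg u
          have h5 : |vv / 2| * |u| ^ 2 ≤ 1 / 2 * |u| :=
            mul_le_mul hvv h3 (by positivity) (by norm_num)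
          have h6 : |mu| * |u| ≤ 1 / 2 * |u| := mul_le_mul_of_nonneg_right hmu h4
          linarith
      _ = |u| := by ring
  have hza : ‖a‖ ≤ 1 := by
    have h1 := Real.exp_one_lt_d9
    have h2 := Real.exp_one_gt_d9
    have h3 : a = ((Real.exp 1 - 3 : ℝ) : ℂ) := by
      rw [Complex.ofReal_sub, heR, ha]
      norm_num
    rw [h3, Complex.norm_real, Real.norm_eq_abs, abs_le]
    constructor <;> linarith
  have hzb : ‖b‖ ≤ 1 := by
    have h1 := Real.exp_one_lt_d9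
    have h2 := Real.exp_one_gt_d9
    have h3 : b = ((Real.exp 1 ^ 2 - 9 / 2 * Real.exp 1 + 5 : ℝ) : ℂ) := by
      rw [Complex.ofReal_add, Complex.ofReal_sub, Complex.ofReal_pow, Complex.ofReal_mul, heR, hb]
      norm_num
    rw [h3, Complex.norm_real, Real.norm_eq_abs, abs_le]
    constructor <;> nlinarith
  refine ⟨|M| + 10, by positivity, fun u hu => ?_⟩
  have hu0 := abs_nonneg u
  have hu3 : |u| ^ 3 ≤ 1 := pow_le_one₀ hu0 hu
  -- the exponential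
  set z0 : ℂ := u * Complex.I - (u : ℂ) ^ 2 / 2 with hz0
  set r1 : ℂ := zz u - z0 with hr1
  have hr1b : ‖r1‖ ≤ |u| ^ 3 := by
    have h1 : ‖(u : ℂ) * Complex.I‖ ≤ 1 := by
      rw [norm_mul, Complex.norm_I, mul_one, Complex.norm_real]
      exact hu
    have h2 := exp3 h1
    have h3 : r1 = Complex.exp ((u : ℂ) * Complex.I) -
        (1 + (u : ℂ) * Complex.I + ((u : ℂ) * Complex.I) ^ 2 / 2) := by
      rw [hr1, hz0]
      unfold zz
      linear_combination ((u : ℂ) ^ 2 / 2) * hI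
    rw [h3]
    refine h2.trans (le_of_eq ?_)
    rw [norm_mul, Complex.norm_I, mul_one, Complex.norm_real]
    rfl
  set w : ℂ := W u with hw
  have hwe : w = m * Complex.I * u - v / 2 * u ^ 2 := by
    rw [hw]
    simp only [W]
    push_cast
    rw [hmR, hvR]
    ring
  set r2 : ℂ := EE u - (1 + w + w ^ 2 / 2) with hr2
  have hr2b : ‖r2‖ ≤ |u| ^ 3 := by
    have h1 : ‖w‖ ≤ 1 := (hW u hu).trans hu
    have h2 := exp3 h1
    exact h2.trans (pow_le_pow_left₀ (norm_nonneg _) (hW u hu) 3)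
  have hz0b : ‖z0‖ ≤ 3 / 2 := by
    calc ‖z0‖ ≤ ‖(u : ℂ) * Complex.I‖ + ‖(u : ℂ) ^ 2 / 2‖ := norm_sub_le _ _
      _ = |u| + |u| ^ 2 / 2 := by
          rw [norm_mul, Complex.norm_I, mul_one, Complex.norm_real, norm_div, norm_pow,
            Complex.norm_real, Real.norm_eq_abs]
          norm_num
      _ ≤ 3 / 2 := by nlinarith
  -- the main polynomial
  have hP0 : 1 + a * z0 + b * z0 ^ 2 = 1 + p1 * u + p2 * u ^ 2 + p3 * u ^ 3 + p4 * u ^ 4 := by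
    simp only [p1, p2, p3, p4, hz0]
    linear_combination (b * (u : ℂ) ^ 2) * hI
  have hE0 : 1 + w + w ^ 2 / 2 = 1 + q1 * u + q2 * u ^ 2 + q3 * u ^ 3 + q4 * u ^ 4 := by
    simp only [q1, q2, q3, q4]
    rw [hwe]
    linear_combination (m ^ 2 * (u : ℂ) ^ 2 / 2) * hI
  have h1 : p1 + q1 = 0 := by simp only [p1, q1, ha, hm]; ring
  have h2 : p2 + q2 + p1 * q1 = 0 := by
    simp only [p1, p2, q1, q2, ha, hb, hm, hv]
    linear_combination ((e - 3) * (3 - e)) * hI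
  have hmain : (1 + a * z0 + b * z0 ^ 2) * (1 + w + w ^ 2 / 2) - 1 = (u : ℂ) ^ 3 * Q u := by
    rw [hP0, hE0]
    simp only [Q]
    linear_combination (u : ℂ) * h1 + (u : ℂ) ^ 2 * h2
  have hPP : PP u = (1 + a * z0 + b * z0 ^ 2) + (a * r1 + b * (2 * z0 * r1 + r1 ^ 2)) := by
    unfold PP
    rw [hr1]
    ring
  have hfin : PP u * EE u - 1 = (u : ℂ) ^ 3 * Q u + (1 + a * z0 + b * z0 ^ 2) * r2 +
      (a * r1 + b * (2 * z0 * r1 + r1 ^ 2)) * EE u := by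
    rw [← hmain, hPP, hr2]
    ring
  rw [hfin]
  have b1 : ‖(u : ℂ) ^ 3 * Q u‖ ≤ |M| * |u| ^ 3 := by
    rw [norm_mul, norm_pow, Complex.norm_real, Real.norm_eq_abs, mul_comm]
    have h3 := hM u (abs_le.1 hu)
    exact mul_le_mul_of_nonneg_right (h3.trans (le_abs_self M)) (by positivity)
  have b2 : ‖(1 + a * z0 + b * z0 ^ 2) * r2‖ ≤ 5 * |u| ^ 3 := by
    rw [norm_mul]
    refine mul_le_mul ?_ hr2b (norm_nonneg _) (by norm_num)
    calc ‖1 + a * z0 + b * z0 ^ 2‖ ≤ ‖(1 : ℂ)‖ + ‖a * z0‖ + ‖b * z0 ^ 2‖ := norm_add₃_le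
      _ = 1 + ‖a‖ * ‖z0‖ + ‖b‖ * ‖z0‖ ^ 2 := by rw [norm_one, norm_mul, norm_mul, norm_pow]
      _ ≤ 1 + 1 * (3 / 2) + 1 * (3 / 2) ^ 2 := by gcongr
      _ ≤ 5 := by norm_num
  have b3 : ‖(a * r1 + b * (2 * z0 * r1 + r1 ^ 2)) * EE u‖ ≤ 5 * |u| ^ 3 := by
    rw [norm_mul]
    have h3 : ‖a * r1 + b * (2 * z0 * r1 + r1 ^ 2)‖ ≤ 5 * |u| ^ 3 := by
      have hr1' : ‖r1‖ ≤ 1 := hr1b.trans hu3
      calc ‖a * r1 + b * (2 * z0 * r1 + r1 ^ 2)‖
          = ‖(a + b * (2 * z0 + r1)) * r1‖ := by congr 1; ring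
        _ = ‖a + b * (2 * z0 + r1)‖ * ‖r1‖ := norm_mul _ _
        _ ≤ 5 * |u| ^ 3 := by
            refine mul_le_mul ?_ hr1b (norm_nonneg _) (by norm_num)
            calc ‖a + b * (2 * z0 + r1)‖ ≤ ‖a‖ + ‖b * (2 * z0 + r1)‖ := norm_add_le _ _
              _ = ‖a‖ + ‖b‖ * ‖2 * z0 + r1‖ := by rw [norm_mul b]
              _ ≤ ‖a‖ + ‖b‖ * (2 * ‖z0‖ + ‖r1‖) := by
                  gcongr
                  refine (norm_add_le _ _).trans ?_
                  rw [norm_mul]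
                  norm_num
              _ ≤ 1 + 1 * (2 * (3 / 2) + 1) := by gcongr
              _ ≤ 5 := by norm_num
    calc ‖a * r1 + b * (2 * z0 * r1 + r1 ^ 2)‖ * ‖EE u‖ ≤ (5 * |u| ^ 3) * 1 :=
          mul_le_mul h3 (norm_EE u) (norm_nonneg _) (by positivity)
      _ = _ := mul_one _
  refine (norm_add₃_le).trans ?_
  nlinarith

/-- powers of numbers close to one -/
theorem pow_sub_one (z : ℂ) (n : ℕ) : ‖(1 + z) ^ n - 1‖ ≤ (1 + ‖z‖) ^ n - 1 := by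
  induction n with
  | zero => simp
  | succ n ih =>
    have h1 : (1 + z) ^ (n + 1) - 1 = ((1 + z) ^ n - 1) * (1 + z) + z := by ring
    rw [h1]
    have h2 : ‖1 + z‖ ≤ 1 + ‖z‖ := (norm_add_le _ _).trans (by rw [norm_one])
    have h3 : 0 ≤ (1 + ‖z‖) ^ n - 1 := by
      have := one_le_pow₀ (by linarith [norm_nonneg z] : 1 ≤ 1 + ‖z‖) (n := n)
      linarith
    calc ‖((1 + z) ^ n - 1) * (1 + z) + z‖ ≤ ‖((1 + z) ^ n - 1) * (1 + z)‖ + ‖z‖ := norm_add_le _ _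
      _ = ‖(1 + z) ^ n - 1‖ * ‖1 + z‖ + ‖z‖ := by rw [norm_mul]
      _ ≤ ((1 + ‖z‖) ^ n - 1) * (1 + ‖z‖) + ‖z‖ := by gcongr
      _ = (1 + ‖z‖) ^ (n + 1) - 1 := by ring

theorem inv_pow_sub_one {w : ℂ} {ε : ℝ} (hw : ‖w - 1‖ ≤ ε) (hε : ε ≤ 1 / 2) (n : ℕ) :
    ‖(w⁻¹) ^ n - 1‖ ≤ 2 * n * ε * Real.exp (2 * n * ε) := by
  have hε0 : 0 ≤ ε := (norm_nonneg _).trans hw
  have h1 : 1 / 2 ≤ ‖w‖ := by
    have h := norm_sub_norm_le (1 : ℂ) (1 - w)
    have h' : (1 : ℂ) - (1 - w) = w := by ring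
    rw [h', norm_one, norm_sub_rev] at h
    linarith
  have hw0 : w ≠ 0 := by
    intro h
    rw [h, norm_zero] at h1
    norm_num at h1
  have h2 : ‖w⁻¹ - 1‖ ≤ 2 * ε := by
    have h3 : w⁻¹ - 1 = (1 - w) / w := by field_simp
    rw [h3, norm_div, norm_sub_rev, div_le_iff₀ (by linarith)]
    nlinarith
  have h4 := pow_sub_one (w⁻¹ - 1) n
  rw [add_sub_cancel] at h4
  refine h4.trans ?_
  have h5 : (1 + ‖w⁻¹ - 1‖) ^ n ≤ Real.exp (2 * n * ε) := by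
    calc (1 + ‖w⁻¹ - 1‖) ^ n ≤ (Real.exp (2 * ε)) ^ n := by
          refine pow_le_pow_left₀ (by positivity) ?_ n
          have := Real.add_one_le_exp (2 * ε)
          linarith
      _ = Real.exp (2 * n * ε) := by
          rw [← Real.exp_nat_mul]
          congr 1
          ring
  have h6 : Real.exp (2 * n * ε) - 1 ≤ 2 * n * ε * Real.exp (2 * n * ε) := by
    set x := 2 * n * ε
    have h7 := Real.add_one_le_exp (-x)
    have h8 : Real.exp (-x) * Real.exp x = 1 := by rw [← Real.exp_add]; simp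
    have h9 := Real.exp_pos x
    nlinarith
  linarith

end Pool.Agent.Y833.BE
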