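import Pool.Agent.H44R2.Stk.T10
import Pool.Agent.Y833.BE.Exp

/-!
# Uniform estimate of the characteristic function
-/

set_option autoImplicit false

open Finset Filter Topology
open Pool.Agent.H44R2.Stk Pool.Agent.H44R2.Stk.T10
open Pool.Agent.H379R2.Stk (exists_rho)
open Pool.Agent.H61R2.Stk (coeff_bound)
open Pool.Agent.H446R2.Stk (rho_expand)

namespace Pool.Agent.Y833.BE

/-- the characteristic function -/
noncomputable def cf (n : ℕ) (θ : ℝ) : ℂ :=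
  (∑ σ ∈ wds (range (n - 1)), Complex.exp (θ * Y n σ * Complex.I)) /
    ((wds (range (n - 1))).card : ℂ)

theorem char_est : ∃ δ : ℝ, 0 < δ ∧ ∃ C : ℝ, 0 < C ∧ ∀ n : ℕ, 1 ≤ n → ∀ θ : ℝ, 0 < θ →
    θ ≤ δ * Real.sqrt n → ‖cf n θ - ((Real.exp (-(vv * θ ^ 2 / 2)) : ℝ) : ℂ)‖ ≤
      C * (θ ^ 3 / Real.sqrt n) * Real.exp (-(vv * θ ^ 2 / 4)) + C * (2 / 3) ^ n := by
  obtain ⟨δ₁, hδ₁, C₁, hC₁, H1⟩ := exists_rho
  obtain ⟨δ₂, hδ₂, C₂, hC₂, H2⟩ := coeff_bound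
  obtain ⟨δ₃, hδ₃, C₃, hC₃, H3⟩ := rho_expand C₁
  obtain ⟨C₅, hC₅, H5⟩ := PE_bound
  have hv := vv_pos
  set C₄ : ℝ := C₃ + C₅ with hC₄
  have hC₄0 : 0 < C₄ := by positivity
  -- the radius
  obtain ⟨δ, hδ0, e1, e2, e3, e4, e5, e6, e7, e8⟩ : ∃ δ : ℝ, 0 < δ ∧ δ ≤ δ₁ ∧ δ ≤ δ₂ ∧ δ ≤ δ₃ ∧
      δ ≤ 1 / 2 ∧ δ ≤ 1 / (2 * C₁) ∧ δ ≤ 1 ∧ C₄ * δ ≤ 1 / 2 ∧ 2 * C₄ * δ ≤ vv / 4 := by
    refine ⟨min (min (min δ₁ δ₂) (min δ₃ (1 / 2))) (min (min (1 / (2 * C₁)) 1)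
      (min (1 / (2 * C₄)) (vv / (8 * C₄)))), ?_, ?_, ?_, ?_, ?_, ?_, ?_, ?_, ?_⟩
    · positivity
    · exact (min_le_left _ _).trans ((min_le_left _ _).trans (min_le_left _ _))
    · exact (min_le_left _ _).trans ((min_le_left _ _).trans (min_le_right _ _))
    · exact (min_le_left _ _).trans ((min_le_right _ _).trans (min_le_left _ _))
    · exact (min_le_left _ _).trans ((min_le_right _ _).trans (min_le_right _ _))
    · exact (min_le_right _ _).trans ((min_le_left _ _).trans (min_le_left _ _))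
    · exact (min_le_right _ _).trans ((min_le_left _ _).trans (min_le_right _ _))
    · refine (mul_le_mul_of_nonneg_left ((min_le_right _ _).trans ((min_le_right _ _).trans
        (min_le_left _ _))) hC₄0.le).trans (le_of_eq ?_)
      field_simp
    · refine (mul_le_mul_of_nonneg_left ((min_le_right _ _).trans ((min_le_right _ _).trans
        (min_le_right _ _))) (by positivity : (0:ℝ) ≤ 2 * C₄)).trans (le_of_eq ?_)
      field_simp
      norm_num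
  refine ⟨δ, hδ0, max (2 * C₄) (3 / 2 * C₂), by positivity, fun n hn θ hθ hθδ => ?_⟩
  have hn0 : (0 : ℝ) < n := by exact_mod_cast hn
  have hs : 0 < Real.sqrt n := Real.sqrt_pos.2 hn0
  set u : ℝ := θ / Real.sqrt n with hu
  have hu0 : 0 < u := div_pos hθ hs
  have huδ : u ≤ δ := by rw [hu, div_le_iff₀ hs]; exact hθδ
  have hu1 : |u| ≤ 1 := by rw [abs_of_pos hu0]; exact huδ.trans e6
  have htz : tt θ n = zz u := by
    unfold tt zz
    rw [hu]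
  set t : ℂ := tt θ n with ht
  have htu : ‖t‖ ≤ u := by
    rw [htz]
    exact norm_zz_le.trans (le_of_eq (abs_of_pos hu0))
  have htδ : ‖t‖ ≤ δ := htu.trans huδ
  obtain ⟨ρ, b1, b2⟩ := H1 t (htδ.trans e1) (phi t) (phi_Phi _ (htδ.trans e4))
  have b3 : ‖ρ - 1‖ ≤ 1 / 2 := by
    refine b1.trans ?_
    calc C₁ * ‖t‖ ≤ C₁ * (1 / (2 * C₁)) := mul_le_mul_of_nonneg_left (htδ.trans e5) hC₁.le
      _ = 1 / 2 := by field_simp
  have b4 : 1 / 2 ≤ ‖ρ‖ := by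
    have h := norm_sub_norm_le (1 : ℂ) (1 - ρ)
    have h' : (1 : ℂ) - (1 - ρ) = ρ := by ring
    rw [h', norm_one, norm_sub_rev] at h
    linarith
  have b5 : ‖ρ‖ ≤ 2 := by
    have h := norm_add_le (ρ - 1) (1 : ℂ)
    rw [sub_add_cancel, norm_one] at h
    linarith
  have hexp := H3 t ρ (htδ.trans e3) b1 (rho_eq t (htδ.trans e4) ρ b5 b2)
  have hco := H2 t (htδ.trans e2) (phi t) (phi_Phi _ (htδ.trans e4)) ρ b4 b5 b2
    (aa (1 + t)) (aa_rec t) (n - 1)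
  rw [Nat.sub_add_cancel hn] at hco
  -- the dominant factor
  have hPP : PP u = 1 + (Complex.exp 1 - 3) * t +
      (Complex.exp 1 ^ 2 - 9 / 2 * Complex.exp 1 + 5) * t ^ 2 := by
    unfold PP
    rw [← htz]
  have hρE : ‖ρ * EE u - 1‖ ≤ C₄ * u ^ 3 := by
    have h1 : ρ * EE u - 1 = (ρ - PP u) * EE u + (PP u * EE u - 1) := by ring
    rw [h1]
    refine (norm_add_le _ _).trans ?_
    have h2 : ‖(ρ - PP u) * EE u‖ ≤ C₃ * u ^ 3 := by
      rw [norm_mul, hPP]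
      calc _ ≤ (C₃ * ‖t‖ ^ 3) * 1 := mul_le_mul hexp (norm_EE u) (norm_nonneg _) (by positivity)
        _ ≤ (C₃ * u ^ 3) * 1 := by gcongr
        _ = _ := mul_one _
    have h3 := H5 u hu1
    rw [abs_of_pos hu0] at h3
    rw [hC₄]
    linarith
  have hsmall : C₄ * u ^ 3 ≤ 1 / 2 := by
    have h1 : u ^ 3 ≤ δ := by
      have h2 : u ^ 3 ≤ u := by
        have h4 : u ≤ 1 := huδ.trans e6
        have h5 : u ^ 2 ≤ 1 := pow_le_one₀ hu0.le h4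
        nlinarith
      exact h2.trans huδ
    exact (mul_le_mul_of_nonneg_left h1 hC₄0.le).trans e7
  have hpow := inv_pow_sub_one hρE hsmall n
  -- identities
  have hnu : (n : ℝ) * u = θ * Real.sqrt n := by
    rw [hu]
    have h := Real.mul_self_sqrt hn0.le
    field_simp
    nlinarith
  have hnu2 : (n : ℝ) * u ^ 2 = θ ^ 2 := by
    rw [hu, div_pow, Real.sq_sqrt hn0.le]
    field_simp
  have hnu3 : (n : ℝ) * u ^ 3 = θ ^ 3 / Real.sqrt n := by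
    have : (n : ℝ) * u ^ 3 = (n * u ^ 2) * u := by ring
    rw [this, hnu2, hu]
    ring
  have hEn : EE u ^ n * Complex.exp (-((θ * (3 - Real.exp 1) * Real.sqrt n : ℝ) : ℂ) * Complex.I) =
      ((Real.exp (-(vv * θ ^ 2 / 2)) : ℝ) : ℂ) := by
    unfold EE
    rw [← Complex.exp_nat_mul, ← Complex.exp_add, Complex.ofReal_exp]
    congr 1
    have h1 : (n : ℂ) * (((mu * u : ℝ) : ℂ) * Complex.I - ((vv / 2 * u ^ 2 : ℝ) : ℂ)) =
        (((mu * (n * u) : ℝ)) : ℂ) * Complex.I - ((vv / 2 * (n * u ^ 2) : ℝ) : ℂ) := by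
      push_cast
      ring
    rw [h1, hnu, hnu2]
    unfold mu
    push_cast
    ring
  have hcf : cf n θ = aa (1 + t) (n - 1) *
      Complex.exp (-((θ * (3 - Real.exp 1) * Real.sqrt n : ℝ) : ℂ) * Complex.I) :=
    charfun_eq θ n hn
  have hEne : EE u ≠ 0 := by unfold EE; exact Complex.exp_ne_zero _
  set Ex : ℂ := Complex.exp (-((θ * (3 - Real.exp 1) * Real.sqrt n : ℝ) : ℂ) * Complex.I) with hEx
  have hExn : ‖Ex‖ = 1 := by
    rw [hEx, ← Complex.ofReal_neg, Complex.norm_exp_ofReal_mul_I]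
  set Gs : ℝ := Real.exp (-(vv * θ ^ 2 / 2)) with hGs
  have hdec : cf n θ - (Gs : ℂ) = (aa (1 + t) (n - 1) - (ρ⁻¹) ^ n) * Ex +
      (Gs : ℂ) * (((ρ * EE u)⁻¹) ^ n - 1) := by
    rw [hcf, ← hEn, mul_inv, mul_pow]
    have h1 : EE u ^ n * (EE u)⁻¹ ^ n = 1 := by
      rw [← mul_pow, mul_inv_cancel₀ hEne, one_pow]
    linear_combination (-(ρ⁻¹) ^ n * Ex) * h1
  rw [hdec]
  have hA : ‖(aa (1 + t) (n - 1) - (ρ⁻¹) ^ n) * Ex‖ ≤ 3 / 2 * C₂ * (2 / 3) ^ n := by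
    rw [norm_mul, hExn, mul_one]
    refine hco.trans (le_of_eq ?_)
    obtain ⟨m, rfl⟩ : ∃ m, n = m + 1 := ⟨n - 1, by omega⟩
    rw [Nat.add_sub_cancel, pow_succ]
    ring
  have hB : ‖(Gs : ℂ) * (((ρ * EE u)⁻¹) ^ n - 1)‖ ≤
      2 * C₄ * (θ ^ 3 / Real.sqrt n) * Real.exp (-(vv * θ ^ 2 / 4)) := by
    rw [norm_mul, Complex.norm_real, Real.norm_eq_abs, abs_of_pos (Real.exp_pos _)]
    have h1 : 2 * (n : ℝ) * (C₄ * u ^ 3) = 2 * C₄ * (θ ^ 3 / Real.sqrt n) := by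
      rw [← hnu3]
      ring
    rw [h1] at hpow
    have h2 : 2 * C₄ * (θ ^ 3 / Real.sqrt n) ≤ vv * θ ^ 2 / 4 := by
      have h3 : θ ^ 3 / Real.sqrt n = θ ^ 2 * u := by rw [hu]; ring
      rw [h3]
      have h4 : 2 * C₄ * u ≤ vv / 4 :=
        (mul_le_mul_of_nonneg_left huδ (by positivity)).trans e8
      have h5 : 0 ≤ θ ^ 2 := sq_nonneg θ
      nlinarith
    have h3 : 0 ≤ 2 * C₄ * (θ ^ 3 / Real.sqrt n) := by positivity
    calc Gs * ‖((ρ * EE u)⁻¹) ^ n - 1‖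
        ≤ Gs * (2 * C₄ * (θ ^ 3 / Real.sqrt n) * Real.exp (2 * C₄ * (θ ^ 3 / Real.sqrt n))) :=
          mul_le_mul_of_nonneg_left hpow (Real.exp_pos _).le
      _ ≤ Gs * (2 * C₄ * (θ ^ 3 / Real.sqrt n) * Real.exp (vv * θ ^ 2 / 4)) := by
          have := Real.exp_le_exp.2 h2
          have hG := Real.exp_pos (-(vv * θ ^ 2 / 2))
          gcongr
      _ = 2 * C₄ * (θ ^ 3 / Real.sqrt n) * (Gs * Real.exp (vv * θ ^ 2 / 4)) := by ring
      _ = 2 * C₄ * (θ ^ 3 / Real.sqrt n) * Real.exp (-(vv * θ ^ 2 / 4)) := by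
          rw [hGs, ← Real.exp_add]
          congr 2
          ring
  refine (norm_add_le _ _).trans ?_
  have h1 : 2 * C₄ * (θ ^ 3 / Real.sqrt n) * Real.exp (-(vv * θ ^ 2 / 4)) ≤
      max (2 * C₄) (3 / 2 * C₂) * (θ ^ 3 / Real.sqrt n) * Real.exp (-(vv * θ ^ 2 / 4)) := by
    gcongr
    exact le_max_left _ _
  have h2 : 3 / 2 * C₂ * (2 / 3 : ℝ) ^ n ≤ max (2 * C₄) (3 / 2 * C₂) * (2 / 3) ^ n := by
    gcongr
    exact le_max_right _ _
  linarith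

end Pool.Agent.Y833.BE
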