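import Pool.Agent.Y833.BE.Smooth
import Pool.Agent.Y833.BE.Exp

/-!
# The normal distribution and uniform distributions on finite sets
-/

set_option autoImplicit false

open Filter Topology MeasureTheory Set ProbabilityTheory

namespace Pool.Agent.Y833.BE

/-- the normal law with variance `v` -/
noncomputable def nu (v : ℝ) : Measure ℝ := gaussianReal 0 (Real.toNNReal v)

instance (v : ℝ) : IsProbabilityMeasure (nu v) := by unfold nu; infer_instance

theorem df_nu (v x : ℝ) : df (nu v) x = cdf (gaussianReal 0 (Real.toNNReal v)) x := by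
  rw [cdf_eq_real]
  rfl

theorem charFun_nu {v : ℝ} (hv : 0 < v) (θ : ℝ) :
    charFun (nu v) θ = ((Real.exp (-(v * θ ^ 2 / 2)) : ℝ) : ℂ) := by
  unfold nu
  rw [charFun_gaussianReal, Complex.ofReal_exp]
  congr 1
  rw [Real.coe_toNNReal v hv.le]
  push_cast
  ring

theorem df_sub (μ : Measure ℝ) [IsProbabilityMeasure μ] {x y : ℝ} (h : x ≤ y) :
    df μ y - df μ x = μ.real (Ioc x y) := by
  unfold df
  have hd : Disjoint (Iic x) (Ioc x y) := Set.disjoint_left.2 fun z hz hz' =>
    absurd (Set.mem_Iic.1 hz) (not_le.2 hz'.1)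
  rw [← Iic_union_Ioc_eq_Iic h, measureReal_union hd measurableSet_Ioc]
  ring

/-- the density -/
noncomputable def den (v x : ℝ) : ℝ := (Real.sqrt (2 * Real.pi * v))⁻¹ * Real.exp (-x ^ 2 / (2 * v))

theorem den_pos {v : ℝ} (hv : 0 < v) (x : ℝ) : 0 < den v x := by
  unfold den
  have := Real.pi_pos
  positivity

theorem df_nu_sub {v : ℝ} (hv : 0 < v) {x y : ℝ} (h : x ≤ y) :
    df (nu v) y - df (nu v) x = ∫ z in x..y, den v z := by
  have hv' : Real.toNNReal v ≠ 0 := (Real.toNNReal_pos.2 hv).ne'
  rw [df_sub _ h, intervalIntegral.integral_of_le h]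
  unfold nu
  rw [measureReal_def, gaussianReal_apply_eq_integral 0 hv', ENNReal.toReal_ofReal]
  · congr 1
    funext z
    unfold gaussianPDFReal den
    rw [Real.coe_toNNReal v hv.le, sub_zero]
  · exact integral_nonneg fun z => gaussianPDFReal_nonneg 0 _ z

theorem den_cont (v : ℝ) : Continuous (den v) := by
  unfold den
  fun_prop

theorem df_nu_upper {v : ℝ} (hv : 0 < v) {x y : ℝ} (h : x ≤ y) :
    df (nu v) y - df (nu v) x ≤ (Real.sqrt (2 * Real.pi * v))⁻¹ * (y - x) := by
  rw [df_nu_sub hv h]
  have h1 := intervalIntegral.integral_mono_on (μ := volume) (f := den v)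
    (g := fun _ => (Real.sqrt (2 * Real.pi * v))⁻¹) h
    ((den_cont v).intervalIntegrable _ _) intervalIntegrable_const (fun z _ => by
      unfold den
      have h2 : Real.exp (-z ^ 2 / (2 * v)) ≤ 1 := by
        apply Real.exp_le_one_iff.2
        rw [neg_div]
        have : 0 ≤ z ^ 2 / (2 * v) := by positivity
        linarith
      have h3 : 0 ≤ (Real.sqrt (2 * Real.pi * v))⁻¹ := by positivity
      exact (mul_le_mul_of_nonneg_left h2 h3).trans (mul_one _).le)
  refine h1.trans (le_of_eq ?_)
  rw [intervalIntegral.integral_const, smul_eq_mul, mul_comm]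

theorem df_nu_lower {v : ℝ} (hv : 0 < v) {x y R : ℝ} (h0 : 0 ≤ x) (h : x ≤ y) (hR : y ≤ R) :
    den v R * (y - x) ≤ df (nu v) y - df (nu v) x := by
  rw [df_nu_sub hv h]
  have h1 := intervalIntegral.integral_mono_on (μ := volume) (g := den v)
    (f := fun _ => den v R) h
    intervalIntegrable_const ((den_cont v).intervalIntegrable _ _) (fun z hz => by
      unfold den
      have h2 : Real.exp (-R ^ 2 / (2 * v)) ≤ Real.exp (-z ^ 2 / (2 * v)) := by
        apply Real.exp_le_exp.2
        apply div_le_div_of_nonneg_right _ (by positivity)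
        have hz0 : 0 ≤ z := h0.trans hz.1
        have hz1 : z ≤ R := hz.2.trans hR
        nlinarith
      have h3 : 0 ≤ (Real.sqrt (2 * Real.pi * v))⁻¹ := by positivity
      exact mul_le_mul_of_nonneg_left h2 h3)
  refine le_trans (le_of_eq ?_) h1
  rw [intervalIntegral.integral_const, smul_eq_mul, mul_comm]

section finite

variable {α : Type} (P : Finset α) (f : α → ℝ)

open Classical in
/-- the law of `f` for the uniform distribution on `P` -/
noncomputable def un : Measure ℝ := (P.card : ENNReal)⁻¹ • ∑ a ∈ P, Measure.dirac (f a)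

theorem un_prob (hP : P.Nonempty) : IsProbabilityMeasure (un P f) := by
  have hc0 : (P.card : ENNReal) ≠ 0 := by exact_mod_cast (Finset.card_pos.mpr hP).ne'
  constructor
  rw [un, Measure.smul_apply, Measure.finsetSum_apply]
  simp only [measure_univ, Finset.sum_const, smul_eq_mul, nsmul_eq_mul, mul_one]
  exact ENNReal.inv_mul_cancel hc0 (ENNReal.natCast_ne_top _)

theorem un_charFun (θ : ℝ) : charFun (un P f) θ =
    (∑ a ∈ P, Complex.exp (θ * f a * Complex.I)) / (P.card : ℂ) := by
  rw [charFun_apply_real, un, integral_smul_measure, integral_finsetSum_measure]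
  · simp only [integral_dirac]
    rw [ENNReal.toReal_inv, ENNReal.toReal_natCast, div_eq_inv_mul, Complex.real_smul]
    push_cast
    rfl
  · intro a _
    exact integrable_dirac (by simp)

open Classical in
theorem un_df (x : ℝ) : df (un P f) x = ((P.filter fun a => f a ≤ x).card : ℝ) / (P.card : ℝ) := by
  unfold df
  rw [measureReal_def, un, Measure.smul_apply, Measure.finsetSum_apply, smul_eq_mul,
    ENNReal.toReal_mul, ENNReal.toReal_inv, ENNReal.toReal_natCast, div_eq_inv_mul]
  congr 1
  have : ∑ a ∈ P, (Measure.dirac (f a)) (Set.Iic x) =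
      ((P.filter (fun a => f a ≤ x)).card : ENNReal) := by
    rw [Finset.card_filter]
    push_cast
    apply Finset.sum_congr rfl
    intro a _
    rw [Measure.dirac_apply' _ measurableSet_Iic]
    by_cases hx : f a ≤ x
    · rw [Set.indicator_of_mem (Set.mem_Iic.mpr hx), if_pos hx]; rfl
    · rw [Set.indicator_of_notMem (fun h' => hx (Set.mem_Iic.mp h')), if_neg hx]
  rw [this, ENNReal.toReal_natCast]

end finite

end Pool.Agent.Y833.BE
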