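import Pool.Agent.Y938.Dc.B

/-!
# Esseen's smoothing inequality for probability measures
-/

set_option autoImplicit false

open Filter Topology MeasureTheory Set ProbabilityTheory
open Pool.Agent.Y938.Dc (kk kk_nonneg kk_int kk_cont kk_le Hf Hf_nonneg Hf_le Hf_tendsto Hf_sub
  smoothing k0 ind_eq)

namespace Pool.Agent.Y833.BE

/-- the distribution function -/
noncomputable def df (μ : Measure ℝ) (x : ℝ) : ℝ := μ.real (Iic x)

theorem df_mono (μ : Measure ℝ) [IsProbabilityMeasure μ] : Monotone (df μ) := fun _ _ h =>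
  measureReal_mono (Iic_subset_Iic.2 h)

theorem df_01 (μ : Measure ℝ) [IsProbabilityMeasure μ] (x : ℝ) : 0 ≤ df μ x ∧ df μ x ≤ 1 :=
  ⟨measureReal_nonneg, measureReal_le_one⟩

theorem Hf_mono : Monotone Hf := fun _ _ h =>
  setIntegral_mono_set kk_int.integrableOn (Eventually.of_forall fun v => kk_nonneg v)
    (LE.le.eventuallyLE (Iic_subset_Iic.2 h))

theorem Hf_le_k0 (s : ℝ) : Hf s ≤ k0 :=
  setIntegral_le_integral kk_int (Eventually.of_forall fun v => kk_nonneg v)

theorem int_df (μ : Measure ℝ) [IsProbabilityMeasure μ] {T : ℝ} (hT : 0 < T) (x : ℝ) :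
    Integrable (fun v => kk v * df μ (x - v / T)) ∧
    ∫ v, kk v * df μ (x - v / T) = ∫ y, Hf (T * (x - y)) ∂μ := by
  have hm : MeasurableSet {z : ℝ × ℝ | z.2 ≤ x - z.1 / T} :=
    measurableSet_le measurable_snd (by fun_prop)
  have hint : Integrable (Function.uncurry fun v y : ℝ =>
      kk v * (if y ≤ x - v / T then (1:ℝ) else 0)) (volume.prod μ) := by
    have h1 : Integrable (fun z : ℝ × ℝ => kk z.1 * (1:ℝ)) (volume.prod μ) :=
      kk_int.mul_prod (integrable_const (1:ℝ))
    refine Integrable.mono' h1 ?_ ?_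
    · refine AEStronglyMeasurable.mul
        ((kk_cont.measurable.comp measurable_fst).aestronglyMeasurable) ?_
      exact (Measurable.ite hm measurable_const measurable_const).aestronglyMeasurable
    · refine Eventually.of_forall fun z => ?_
      change ‖kk z.1 * (if z.2 ≤ x - z.1 / T then (1:ℝ) else 0)‖ ≤ kk z.1 * 1
      rw [norm_mul, Real.norm_eq_abs, abs_of_nonneg (kk_nonneg _)]
      refine mul_le_mul_of_nonneg_left ?_ (kk_nonneg _)
      split_ifs <;> simp
  have e1 : ∀ v, ∫ y, kk v * (if y ≤ x - v / T then (1:ℝ) else 0) ∂μ =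
      kk v * df μ (x - v / T) := by
    intro v
    rw [integral_const_mul]
    congr 1
    have : (fun y => if y ≤ x - v / T then (1:ℝ) else 0) =
        (Iic (x - v / T)).indicator (fun _ => (1:ℝ)) := by
      funext y
      simp [Set.indicator, Set.mem_Iic]
    rw [this, integral_indicator measurableSet_Iic]
    simp [df]
  have e2 : ∀ y, ∫ v, kk v * (if y ≤ x - v / T then (1:ℝ) else 0) = Hf (T * (x - y)) := by
    intro y
    rw [ind_eq hT, integral_indicator measurableSet_Iic]
    rfl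
  constructor
  · have h := hint.integral_prod_left
    refine h.congr (Eventually.of_forall fun v => ?_)
    exact e1 v
  · have h := integral_integral_swap hint
    simp only [e1, e2] at h
    exact h

/-- the inner integral -/
noncomputable def cc (T x' x t y : ℝ) : ℝ :=
  T * (x - x') * ∫ w in (0:ℝ)..1, Real.cos (t * (T * (x' - y) + T * (x - x') * w))

theorem cc_eq1 (T x' x t y : ℝ) :
    cc T x' x t y = ∫ v in (T * (x' - y))..(T * (x - y)), Real.cos (t * v) := by
  unfold cc
  rw [intervalIntegral.mul_integral_comp_add_mul (f := fun v => Real.cos (t * v))]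
  congr 1 <;> ring

theorem cc_cont (T x' x : ℝ) : Continuous (Function.uncurry fun t y : ℝ => cc T x' x t y) := by
  unfold cc Function.uncurry
  refine continuous_const.mul ?_
  apply intervalIntegral.continuous_parametric_intervalIntegral_of_continuous'
  fun_prop

theorem cc_cont_y (T x' x t : ℝ) : Continuous fun y : ℝ => cc T x' x t y :=
  Continuous.comp (g := Function.uncurry fun t y : ℝ => cc T x' x t y) (f := fun y : ℝ => (t, y))
    (cc_cont T x' x) (continuous_const.prodMk continuous_id)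

theorem cc_cont_t (T x' x y : ℝ) : Continuous fun t : ℝ => cc T x' x t y :=
  Continuous.comp (g := Function.uncurry fun t y : ℝ => cc T x' x t y) (f := fun t : ℝ => (t, y))
    (cc_cont T x' x) (continuous_id.prodMk continuous_const)

theorem cc_bound (T x' x t y : ℝ) : |cc T x' x t y| ≤ |T * (x - x')| := by
  unfold cc
  rw [abs_mul]
  have h := intervalIntegral.norm_integral_le_of_norm_le_const (a := 0) (b := 1) (C := 1)
    (f := fun w : ℝ => Real.cos (t * (T * (x' - y) + T * (x - x') * w)))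
    (fun w _ => Real.abs_cos_le_one _)
  rw [sub_zero, abs_one, mul_one] at h
  calc |T * (x - x')| * |∫ w in (0:ℝ)..1, Real.cos (t * (T * (x' - y) + T * (x - x') * w))|
      ≤ |T * (x - x')| * 1 := mul_le_mul_of_nonneg_left h (abs_nonneg _)
    _ = _ := mul_one _

theorem cc_eq2 {T x' x t : ℝ} (ht : t ≠ 0) (y : ℝ) : cc T x' x t y =
    (Real.sin (t * T * (x - y)) - Real.sin (t * T * (x' - y))) / t := by
  rw [cc_eq1, intervalIntegral.integral_comp_mul_left (fun v => Real.cos v) ht, integral_cos,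
    smul_eq_mul]
  rw [show t * (T * (x - y)) = t * T * (x - y) by ring,
    show t * (T * (x' - y)) = t * T * (x' - y) by ring]
  field_simp

theorem sin_int (μ : Measure ℝ) [IsProbabilityMeasure μ] (s x : ℝ) :
    ∫ y, Real.sin (s * (x - y)) ∂μ =
      (Complex.exp (((s * x : ℝ) : ℂ) * Complex.I) * charFun μ (-s)).im := by
  rw [charFun_apply_real, ← integral_const_mul]
  have h1 : Integrable (fun y : ℝ => Complex.exp (((s * x : ℝ) : ℂ) * Complex.I) *
      Complex.exp (((-s : ℝ) : ℂ) * y * Complex.I)) μ := by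
    refine Integrable.mono' (integrable_const (1:ℝ)) ?_ (Eventually.of_forall fun y => ?_)
    · exact Continuous.aestronglyMeasurable (by fun_prop)
    · rw [norm_mul, Complex.norm_exp_ofReal_mul_I, one_mul, ← Complex.ofReal_mul,
        Complex.norm_exp_ofReal_mul_I]
  have h2 := integral_im h1
  simp only [RCLike.im_to_complex] at h2
  rw [← h2]
  congr 1
  funext y
  rw [← Complex.exp_add]
  have : (((s * x : ℝ) : ℂ) * Complex.I + ((-s : ℝ) : ℂ) * y * Complex.I) =
      ((s * (x - y) : ℝ) : ℂ) * Complex.I := by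
    push_cast
    ring
  rw [this, Complex.exp_ofReal_mul_I_im]

theorem sin_diff (μ ν : Measure ℝ) [IsProbabilityMeasure μ] [IsProbabilityMeasure ν] (s x : ℝ) :
    |∫ y, Real.sin (s * (x - y)) ∂μ - ∫ y, Real.sin (s * (x - y)) ∂ν| ≤
      ‖charFun μ s - charFun ν s‖ := by
  rw [sin_int, sin_int, ← Complex.sub_im, ← mul_sub]
  refine (Complex.abs_im_le_norm _).trans ?_
  rw [norm_mul, Complex.norm_exp_ofReal_mul_I, one_mul, charFun_neg, charFun_neg, ← map_sub]
  exact (RCLike.norm_conj _).le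

theorem Hf_sub' (T x' x y : ℝ) : Hf (T * (x - y)) - Hf (T * (x' - y)) =
    ∫ t in (0:ℝ)..1, (1 - t) * cc T x' x t y := by
  rw [Hf_sub]
  congr 1
  funext t
  rw [cc_eq1]

theorem int_sub (μ : Measure ℝ) [IsProbabilityMeasure μ] (T x' x : ℝ) :
    ∫ y, Hf (T * (x - y)) ∂μ - ∫ y, Hf (T * (x' - y)) ∂μ =
      ∫ t in (0:ℝ)..1, (1 - t) * ∫ y, cc T x' x t y ∂μ := by
  have hi : ∀ z : ℝ, Integrable (fun y => Hf (T * (z - y))) μ := by
    intro z
    refine Integrable.mono' (integrable_const k0) ?_ (Eventually.of_forall fun y => ?_)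
    · exact (Hf_mono.measurable.comp (by fun_prop)).aestronglyMeasurable
    · rw [Real.norm_eq_abs, abs_of_nonneg (Hf_nonneg _)]
      exact Hf_le_k0 _
  rw [← integral_sub (hi x) (hi x')]
  simp_rw [Hf_sub' T x' x]
  have hint : Integrable (Function.uncurry fun t y : ℝ => (1 - t) * cc T x' x t y)
      ((volume.restrict (Set.uIoc 0 1)).prod μ) := by
    have hfin : IsFiniteMeasure (volume.restrict (Set.uIoc (0:ℝ) 1)) := by
      rw [Set.uIoc_of_le zero_le_one]
      infer_instance
    have h1 : AEStronglyMeasurable (Function.uncurry fun t y : ℝ => (1 - t) * cc T x' x t y)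
        ((volume.restrict (Set.uIoc 0 1)).prod μ) := by
      have h2 : Continuous (Function.uncurry fun t y : ℝ => (1 - t) * cc T x' x t y) := by
        have h3 : Continuous fun z : ℝ × ℝ => 1 - z.1 := by fun_prop
        exact h3.mul (cc_cont T x' x)
      exact h2.aestronglyMeasurable
    refine Integrable.mono' (g := fun _ => |T * (x - x')|) (integrable_const _) h1 ?_
    have h4 : ∀ᵐ t ∂(volume.restrict (Set.uIoc (0:ℝ) 1)), t ∈ Set.uIoc (0:ℝ) 1 :=
      ae_restrict_mem measurableSet_uIoc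
    have h5 : ∀ᵐ z ∂((volume.restrict (Set.uIoc (0:ℝ) 1)).prod μ), z.1 ∈ Set.uIoc (0:ℝ) 1 :=
      Measure.quasiMeasurePreserving_fst.ae h4
    filter_upwards [h5] with z hz
    rw [Set.uIoc_of_le zero_le_one, mem_Ioc] at hz
    change ‖(1 - z.1) * cc T x' x z.1 z.2‖ ≤ _
    rw [Real.norm_eq_abs, abs_mul]
    have h6 : |1 - z.1| ≤ 1 := by rw [abs_le]; constructor <;> linarith [hz.1, hz.2]
    calc |1 - z.1| * |cc T x' x z.1 z.2| ≤ 1 * |T * (x - x')| :=
          mul_le_mul h6 (cc_bound _ _ _ _ _) (abs_nonneg _) zero_le_one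
      _ = _ := one_mul _
  rw [← intervalIntegral_integral_swap hint]
  congr 1
  funext t
  rw [integral_const_mul]

theorem D_diff (μ ν : Measure ℝ) [IsProbabilityMeasure μ] [IsProbabilityMeasure ν] {T : ℝ}
    (hT : 0 < T) {g : ℝ → ℝ} (hg : IntervalIntegrable g volume 0 T)
    (h : ∀ s, 0 < s → s ≤ T → ‖charFun μ s - charFun ν s‖ ≤ s * g s) (x' x : ℝ) :
    |(∫ y, Hf (T * (x - y)) ∂μ - ∫ y, Hf (T * (x - y)) ∂ν) -
      (∫ y, Hf (T * (x' - y)) ∂μ - ∫ y, Hf (T * (x' - y)) ∂ν)| ≤ 2 * ∫ s in (0:ℝ)..T, g s := by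
  have hc : ∀ (κ : Measure ℝ) [IsProbabilityMeasure κ],
      Continuous fun t : ℝ => ∫ y, cc T x' x t y ∂κ := by
    intro κ _
    refine continuous_of_dominated (bound := fun _ => |T * (x - x')|) (fun t => ?_) (fun t => ?_)
      (integrable_const _) (Eventually.of_forall fun y => ?_)
    · exact (cc_cont_y T x' x t).aestronglyMeasurable
    · exact Eventually.of_forall fun y => cc_bound _ _ _ _ _
    · exact cc_cont_t T x' x y
  have e1 : (∫ y, Hf (T * (x - y)) ∂μ - ∫ y, Hf (T * (x - y)) ∂ν) -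
      (∫ y, Hf (T * (x' - y)) ∂μ - ∫ y, Hf (T * (x' - y)) ∂ν) =
      ∫ t in (0:ℝ)..1, (1 - t) * (∫ y, cc T x' x t y ∂μ - ∫ y, cc T x' x t y ∂ν) := by
    have h1 := int_sub μ T x' x
    have h2 := int_sub ν T x' x
    have h3 : (∫ y, Hf (T * (x - y)) ∂μ - ∫ y, Hf (T * (x - y)) ∂ν) -
      (∫ y, Hf (T * (x' - y)) ∂μ - ∫ y, Hf (T * (x' - y)) ∂ν) =
      (∫ y, Hf (T * (x - y)) ∂μ - ∫ y, Hf (T * (x' - y)) ∂μ) -
      (∫ y, Hf (T * (x - y)) ∂ν - ∫ y, Hf (T * (x' - y)) ∂ν) := by ring
    have hcont : ∀ (κ : Measure ℝ) [IsProbabilityMeasure κ],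
        Continuous fun t : ℝ => (1 - t) * ∫ y, cc T x' x t y ∂κ := fun κ _ =>
      (by fun_prop : Continuous fun t : ℝ => 1 - t).mul (hc κ)
    rw [h3, h1, h2, ← intervalIntegral.integral_sub ((hcont μ).intervalIntegrable _ _)
      ((hcont ν).intervalIntegrable _ _)]
    congr 1
    funext t
    ring
  rw [e1]
  have hg2 : IntervalIntegrable (fun t => 2 * T * g (T * t)) volume 0 1 := by
    have h1 := (hg.comp_mul_left (c := T))
    rw [zero_div, div_self hT.ne'] at h1
    exact h1.const_mul _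
  have h4 := intervalIntegral.norm_integral_le_of_norm_le zero_le_one
    (f := fun t => (1 - t) * (∫ y, cc T x' x t y ∂μ - ∫ y, cc T x' x t y ∂ν))
    (g := fun t => 2 * T * g (T * t)) (Eventually.of_forall fun t ht => ?_) hg2
  · refine h4.trans (le_of_eq ?_)
    rw [intervalIntegral.integral_const_mul, intervalIntegral.integral_comp_mul_left g hT.ne',
      mul_zero, mul_one, smul_eq_mul]
    field_simp
  · have ht0 : t ≠ 0 := ht.1.ne'
    have htT : 0 < t * T := mul_pos ht.1 hT
    have hs := h (t * T) htT (by nlinarith [ht.2])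
    have e2 : ∀ (κ : Measure ℝ) [IsProbabilityMeasure κ], ∫ y, cc T x' x t y ∂κ =
        (∫ y, Real.sin (t * T * (x - y)) ∂κ - ∫ y, Real.sin (t * T * (x' - y)) ∂κ) / t := by
      intro κ _
      have hsi : ∀ z : ℝ, Integrable (fun y => Real.sin (t * T * (z - y))) κ := by
        intro z
        refine Integrable.mono' (integrable_const (1:ℝ))
          (Continuous.aestronglyMeasurable (by fun_prop)) (Eventually.of_forall fun y => ?_)
        exact Real.abs_sin_le_one _
      rw [← integral_sub (hsi x) (hsi x'), ← integral_div]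
      congr 1
      funext y
      exact cc_eq2 ht0 y
    rw [e2, e2, ← sub_div, Real.norm_eq_abs, abs_mul, abs_div, abs_of_pos ht.1]
    have h1 := sin_diff μ ν (t * T) x
    have h2 := sin_diff μ ν (t * T) x'
    have h6 : |1 - t| ≤ 1 := by rw [abs_le]; constructor <;> linarith [ht.1, ht.2]
    have h7 : |∫ y, Real.sin (t * T * (x - y)) ∂μ - ∫ y, Real.sin (t * T * (x' - y)) ∂μ -
        (∫ y, Real.sin (t * T * (x - y)) ∂ν - ∫ y, Real.sin (t * T * (x' - y)) ∂ν)| ≤
        2 * (t * T * g (t * T)) := by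
      rw [show ∀ a b c d : ℝ, a - b - (c - d) = (a - c) - (b - d) from fun a b c d => by ring]
      refine (abs_sub _ _).trans ?_
      linarith
    rw [mul_comm T t]
    have h8 : |∫ y, Real.sin (t * T * (x - y)) ∂μ - ∫ y, Real.sin (t * T * (x' - y)) ∂μ -
        (∫ y, Real.sin (t * T * (x - y)) ∂ν - ∫ y, Real.sin (t * T * (x' - y)) ∂ν)| / t ≤
        2 * T * g (t * T) := by
      rw [div_le_iff₀ ht.1]
      linarith
    calc _ ≤ 1 * (2 * T * g (t * T)) :=
          mul_le_mul h6 h8 (div_nonneg (abs_nonneg _) ht.1.le) zero_le_one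
      _ = _ := one_mul _

theorem Hf_int_tendsto (μ : Measure ℝ) [IsProbabilityMeasure μ] {T : ℝ} (hT : 0 < T) :
    Tendsto (fun x => ∫ y, Hf (T * (x - y)) ∂μ) atBot (𝓝 0) := by
  have h := tendsto_integral_filter_of_dominated_convergence (μ := μ) (l := atBot)
    (F := fun x y => Hf (T * (x - y))) (f := fun _ => (0:ℝ)) (fun _ => k0)
    (Eventually.of_forall fun x => (Hf_mono.measurable.comp (by fun_prop)).aestronglyMeasurable)
    (Eventually.of_forall fun x => Eventually.of_forall fun y => by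
      rw [Real.norm_eq_abs, abs_of_nonneg (Hf_nonneg _)]
      exact Hf_le_k0 _) (integrable_const _)
    (Eventually.of_forall fun y => by
      apply Hf_tendsto.comp
      apply Tendsto.const_mul_atBot hT
      exact tendsto_atBot_add_const_right _ _ tendsto_id)
  rwa [integral_zero] at h

/-- **Esseen's inequality**. -/
theorem esseen : ∃ C : ℝ, 0 < C ∧ ∀ (μ ν : Measure ℝ) [IsProbabilityMeasure μ]
    [IsProbabilityMeasure ν] (A T : ℝ) (g : ℝ → ℝ), 0 ≤ A → 0 < T →
    (∀ x y, x ≤ y → df ν y - df ν x ≤ A * (y - x)) → IntervalIntegrable g volume 0 T →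
    (∀ s, 0 < s → s ≤ T → ‖charFun μ s - charFun ν s‖ ≤ s * g s) →
    ∀ x, |df μ x - df ν x| ≤ C * ((∫ s in (0:ℝ)..T, g s) + A / T) := by
  obtain ⟨C, hC, H⟩ := smoothing
  refine ⟨2 * C, by positivity, ?_⟩
  intro μ ν _ _ A T g hA hT hL hg h x
  set D : ℝ → ℝ := fun x => ∫ y, Hf (T * (x - y)) ∂μ - ∫ y, Hf (T * (x - y)) ∂ν with hD
  have hDlim : Tendsto D atBot (𝓝 0) := by
    have := (Hf_int_tendsto μ hT).sub (Hf_int_tendsto ν hT)
    rwa [sub_zero] at this
  have hI : ∀ x, |D x| ≤ 2 * ∫ s in (0:ℝ)..T, g s := by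
    intro x
    have h5 : Tendsto (fun x' => 2 * (∫ s in (0:ℝ)..T, g s) + |D x'|) atBot
        (𝓝 (2 * (∫ s in (0:ℝ)..T, g s) + |0|)) := tendsto_const_nhds.add hDlim.abs
    rw [abs_zero, add_zero] at h5
    refine ge_of_tendsto h5 (Eventually.of_forall (fun x' => ?_))
    have h6 := D_diff μ ν hT hg h x' x
    calc |D x| = |(D x - D x') + D x'| := by ring_nf
      _ ≤ |D x - D x'| + |D x'| := abs_add_le _ _
      _ ≤ _ := by linarith
  have h1 := H (df μ) (df ν) A 0 (2 * ∫ s in (0:ℝ)..T, g s) T (df_mono μ) (df_mono ν) (df_01 μ)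
    (df_01 ν) hA le_rfl hT (fun x y hxy => by rw [add_zero]; exact hL x y hxy) (fun x => by
      obtain ⟨i1, e1⟩ := int_df μ hT x
      obtain ⟨i2, e2⟩ := int_df ν hT x
      have e3 : ∫ v, kk v * (df μ (x - v / T) - df ν (x - v / T)) = D x := by
        rw [hD]
        beta_reduce
        rw [← e1, ← e2, ← integral_sub i1 i2]
        congr 1
        funext v
        ring
      rw [e3]
      exact hI x) x
  refine h1.trans ?_
  have h2 : 0 ≤ A / T := by positivity
  nlinarith

end Pool.Agent.Y833.BE
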