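import Pool.Agent.Y833.BE.CharEst
import Pool.Agent.Y833.BE.Gauss

/-!
# The exact order of the distance to the normal law
-/

set_option autoImplicit false

open Finset Filter Topology MeasureTheory ProbabilityTheory
open Pool.Agent.H44R2.Stk Pool.Agent.H44R2.Stk.T10
open Pool.Agent.H409R2.Stk (mem_wds card_wds_range)

namespace Pool.Agent.Y833.BE

/-! ### Sizes -/

theorem length_stp (p : List ℕ × List ℕ) (z : ℕ) :
    (stp p z).1.length + (stp p z).2.length = p.1.length + p.2.length + 1 := by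
  unfold stp
  have h : (p.1.takeWhile (fun a : ℕ => decide (a < z))).length +
      (p.1.dropWhile (fun a : ℕ => decide (a < z))).length = p.1.length := by
    rw [← List.length_append, List.takeWhile_append_dropWhile]
  simp only [List.length_cons, List.length_append]
  omega

theorem length_foldl (σ : List ℕ) (p : List ℕ × List ℕ) :
    (σ.foldl stp p).1.length + (σ.foldl stp p).2.length = p.1.length + p.2.length + σ.length := by
  induction σ generalizing p with
  | nil => simp
  | cons z σ ih =>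
    rw [List.foldl_cons, ih, length_stp, List.length_cons]
    omega

theorem length_srt (σ : List ℕ) : (srt σ).length = σ.length := by
  unfold srt
  have h := length_foldl σ ([], [])
  rw [List.length_append]
  simp only [List.length_nil] at h
  omega

theorem des_le (t : List ℕ) : des t ≤ t.length := by
  unfold des
  refine (List.countP_le_length).trans ?_
  rw [List.length_zip]
  exact min_le_left _ _

theorem Y_bound {n : ℕ} (hn : 1 ≤ n) {σ : List ℕ} (hσ : σ ∈ wds (range (n - 1))) :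
    |Y n σ| ≤ Real.sqrt n := by
  have hlen : σ.length = n - 1 := by
    obtain ⟨h1, h2⟩ := (mem_wds _ _).1 hσ
    rw [← List.toFinset_card_of_nodup h1, h2, card_range]
  have hdes : des (srt σ) + 1 ≤ n := by
    have := des_le (srt σ)
    rw [length_srt, hlen] at this
    omega
  have hn0 : (0 : ℝ) < n := by exact_mod_cast hn
  have hs : 0 < Real.sqrt n := Real.sqrt_pos.2 hn0
  have hsq := Real.mul_self_sqrt hn0.le
  have h1 := Real.exp_one_lt_d9
  have h2 := Real.exp_one_gt_d9
  have hd : ((des (srt σ) : ℝ) + 1) ≤ n := by exact_mod_cast hdes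
  have hd0 : (0 : ℝ) ≤ des (srt σ) := Nat.cast_nonneg _
  unfold Y
  rw [abs_div, abs_of_pos hs, div_le_iff₀ hs, hsq, abs_le]
  constructor <;> nlinarith

/-- the characteristic function for small arguments -/
theorem cf_small {n : ℕ} (hn : 1 ≤ n) {θ : ℝ} (hθ : 0 < θ) :
    ‖cf n θ - 1‖ ≤ θ * Real.sqrt n := by
  have hc := wds_range_card (n - 1)
  have hcard : (0 : ℝ) < ((wds (range (n - 1))).card : ℝ) := by
    exact_mod_cast Finset.card_pos.2 hc
  have h1 : cf n θ - 1 = (∑ σ ∈ wds (range (n - 1)), (Complex.exp (θ * Y n σ * Complex.I) - 1)) /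
      ((wds (range (n - 1))).card : ℂ) := by
    unfold cf
    rw [Finset.sum_sub_distrib, sub_div, Finset.sum_const, nsmul_eq_mul, mul_one, div_self]
    exact_mod_cast hcard.ne'
  rw [h1, norm_div, Complex.norm_natCast, div_le_iff₀ hcard]
  refine (norm_sum_le _ _).trans ?_
  have h2 : ∀ σ ∈ wds (range (n - 1)), ‖Complex.exp (θ * Y n σ * Complex.I) - 1‖ ≤
      θ * Real.sqrt n := by
    intro σ hσ
    have h := Real.norm_exp_I_mul_ofReal_sub_one_le (x := θ * Y n σ)
    rw [mul_comm, Complex.ofReal_mul] at h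
    refine h.trans ?_
    rw [Real.norm_eq_abs, abs_mul, abs_of_pos hθ]
    exact mul_le_mul_of_nonneg_left (Y_bound hn hσ) hθ.le
  refine (Finset.sum_le_sum h2).trans (le_of_eq ?_)
  rw [Finset.sum_const, nsmul_eq_mul]
  ring

/-! ### The upper bound -/

/-- the law of the statistic -/
noncomputable def law (n : ℕ) : Measure ℝ := un (wds (range (n - 1))) (Y n)

instance (n : ℕ) : IsProbabilityMeasure (law n) := un_prob _ _ (wds_range_card (n - 1))

theorem charFun_law (n : ℕ) (θ : ℝ) : charFun (law n) θ = cf n θ := un_charFun _ _ θ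

theorem exp_int {c T : ℝ} (hc : 0 < c) :
    ∫ θ in (0:ℝ)..T, Real.exp (1 - c * θ) ≤ Real.exp 1 / c := by
  have h1 : ∀ θ ∈ Set.uIcc (0:ℝ) T, HasDerivAt (fun θ => -(Real.exp (1 - c * θ) / c))
      (Real.exp (1 - c * θ)) θ := by
    intro θ _
    have h2 : HasDerivAt (fun θ : ℝ => 1 - c * θ) (-c) θ := by
      simpa using ((hasDerivAt_id θ).const_mul c).const_sub 1
    have h3 := (h2.exp.div_const c).neg
    refine h3.congr_deriv ?_
    field_simp
  rw [intervalIntegral.integral_eq_sub_of_hasDerivAt h1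
    (Continuous.intervalIntegrable (by fun_prop) _ _)]
  rw [mul_zero, sub_zero]
  have h4 : 0 ≤ Real.exp (1 - c * T) / c := by positivity
  linarith

theorem gauss_int {v : ℝ} (hv : 0 < v) : ∃ K : ℝ, 0 < K ∧ ∀ T : ℝ, 0 ≤ T →
    ∫ θ in (0:ℝ)..T, θ ^ 2 * Real.exp (-(v * θ ^ 2 / 4)) ≤ K := by
  have hi : Integrable (fun θ : ℝ => θ ^ 2 * Real.exp (-(v * θ ^ 2 / 4))) := by
    have h := integrable_rpow_mul_exp_neg_mul_sq (b := v / 4) (by positivity) (s := 2)
      (by norm_num)
    refine h.congr (Eventually.of_forall fun θ => ?_)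
    dsimp only
    rw [show (2:ℝ) = ((2:ℕ) : ℝ) by norm_num, Real.rpow_natCast]
    congr 2
    norm_num
    ring
  refine ⟨(∫ θ, θ ^ 2 * Real.exp (-(v * θ ^ 2 / 4))) + 1, ?_, fun T hT => ?_⟩
  · have : 0 ≤ ∫ θ : ℝ, θ ^ 2 * Real.exp (-(v * θ ^ 2 / 4)) :=
      integral_nonneg fun θ => by positivity
    linarith
  · rw [intervalIntegral.integral_of_le hT]
    have := setIntegral_le_integral (s := Set.Ioc 0 T) hi
      (Eventually.of_forall fun θ => by positivity)
    linarith

theorem upper : ∃ C : ℝ, 0 < C ∧ ∀ n : ℕ, 1 ≤ n → ∀ x : ℝ,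
    |df (law n) x - df (nu vv) x| ≤ C / Real.sqrt n := by
  obtain ⟨C₁, hC₁, HE⟩ := esseen
  obtain ⟨δ, hδ, C, hC, HC⟩ := char_est
  have hv := vv_pos
  obtain ⟨K, hK, hKT⟩ := gauss_int hv
  obtain ⟨K₂, hK₂⟩ : ∃ K₂ : ℝ, ∀ n : ℕ, (n : ℝ) ^ 3 * (2 / 3) ^ n ≤ K₂ := by
    have h := tendsto_pow_const_mul_const_pow_of_abs_lt_one 3
      (by rw [abs_lt]; constructor <;> norm_num : |(2 / 3 : ℝ)| < 1)
    obtain ⟨K₂, hK₂⟩ := h.bddAbove_range
    exact ⟨K₂, fun n => hK₂ ⟨n, rfl⟩⟩
  have hK₂0 : 0 ≤ K₂ := by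
    have := hK₂ 0
    simpa using this
  set A : ℝ := (Real.sqrt (2 * Real.pi * vv))⁻¹ with hA
  have hA0 : 0 < A := by
    have := Real.pi_pos
    positivity
  refine ⟨C₁ * (C * K + C * δ * K₂ + 2 * Real.exp 1 + A / δ), by positivity, fun n hn x => ?_⟩
  have hn0 : (0 : ℝ) < n := by exact_mod_cast hn
  have hn1 : (1 : ℝ) ≤ n := by exact_mod_cast hn
  have hs : 0 < Real.sqrt n := Real.sqrt_pos.2 hn0
  have hs1 : 1 ≤ Real.sqrt n := Real.one_le_sqrt.2 hn1
  have hsq : Real.sqrt n * Real.sqrt n = n := Real.mul_self_sqrt hn0.le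
  set g1 : ℝ → ℝ := fun θ => C / Real.sqrt n * (θ ^ 2 * Real.exp (-(vv * θ ^ 2 / 4))) with hg1
  set g2 : ℝ := C * (2 / 3) ^ n * (n : ℝ) ^ 2 with hg2
  set g3 : ℝ → ℝ := fun θ => (Real.sqrt n + 1) * Real.exp (1 - (n : ℝ) ^ 2 * θ) with hg3
  have c1 : Continuous g1 := by fun_prop
  have c3 : Continuous g3 := by fun_prop
  have hT : 0 < δ * Real.sqrt n := by positivity
  have h := HE (law n) (nu vv) A (δ * Real.sqrt n) (fun θ => g1 θ + g2 + g3 θ) hA0.le hT
    (fun x y hxy => df_nu_upper hv hxy)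
    (Continuous.intervalIntegrable (by fun_prop) _ _) (fun θ hθ hθT => by
      rw [charFun_law, charFun_nu hv]
      rcases le_total (1 / (n : ℝ) ^ 2) θ with hbig | hsmall
      · have h1 := HC n hn θ hθ hθT
        have h2 : C * (θ ^ 3 / Real.sqrt n) * Real.exp (-(vv * θ ^ 2 / 4)) = θ * g1 θ := by
          rw [hg1]
          ring
        have h3 : C * (2 / 3 : ℝ) ^ n ≤ θ * g2 := by
          have h4 : 1 ≤ θ * (n : ℝ) ^ 2 := by
            rw [div_le_iff₀ (by positivity)] at hbig
            linarith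
          have h5 : 0 ≤ C * (2 / 3 : ℝ) ^ n := by positivity
          calc C * (2 / 3 : ℝ) ^ n = C * (2 / 3 : ℝ) ^ n * 1 := (mul_one _).symm
            _ ≤ C * (2 / 3 : ℝ) ^ n * (θ * (n : ℝ) ^ 2) := mul_le_mul_of_nonneg_left h4 h5
            _ = θ * g2 := by rw [hg2]; ring
        have h6 : 0 ≤ θ * g3 θ := by
          rw [hg3]
          positivity
        rw [h2] at h1
        calc _ ≤ θ * g1 θ + C * (2 / 3) ^ n := h1
          _ ≤ θ * g1 θ + θ * g2 + θ * g3 θ := by linarith
          _ = _ := by ring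
      · have hθ1 : θ ≤ 1 := by
          refine hsmall.trans ?_
          rw [div_le_one (by positivity)]
          exact one_le_pow₀ hn1
        have h1 := cf_small hn hθ
        have h2 : ‖(((Real.exp (-(vv * θ ^ 2 / 2)) : ℝ) : ℂ)) - 1‖ ≤ θ := by
          rw [← Complex.ofReal_one, ← Complex.ofReal_sub, Complex.norm_real, Real.norm_eq_abs]
          have h3 := Real.add_one_le_exp (-(vv * θ ^ 2 / 2))
          have h4 : Real.exp (-(vv * θ ^ 2 / 2)) ≤ 1 := by
            apply Real.exp_le_one_iff.2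
            have : 0 ≤ vv * θ ^ 2 / 2 := by positivity
            linarith
          have h5 : vv * θ ^ 2 / 2 ≤ θ := by
            have h6 := Real.exp_one_lt_d9
            have h7 := Real.exp_one_gt_d9
            have h8 : vv ≤ 1 := by unfold vv; nlinarith
            have h9 : θ ^ 2 ≤ θ := by nlinarith
            nlinarith [sq_nonneg θ]
          rw [abs_le]
          constructor <;> linarith
        have h3 : ‖cf n θ - ((Real.exp (-(vv * θ ^ 2 / 2)) : ℝ) : ℂ)‖ ≤
            θ * (Real.sqrt n + 1) := by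
          have h4 : cf n θ - ((Real.exp (-(vv * θ ^ 2 / 2)) : ℝ) : ℂ) = (cf n θ - 1) -
            ((((Real.exp (-(vv * θ ^ 2 / 2)) : ℝ) : ℂ)) - 1) := by ring
          rw [h4]
          refine (norm_sub_le _ _).trans ?_
          linarith
        have h4 : θ * (Real.sqrt n + 1) ≤ θ * g3 θ := by
          rw [hg3]
          have h5 : 1 ≤ Real.exp (1 - (n : ℝ) ^ 2 * θ) := by
            apply Real.one_le_exp
            rw [le_div_iff₀ (by positivity)] at hsmall
            linarith
          have h6 : 0 ≤ Real.sqrt n + 1 := by positivity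
          exact mul_le_mul_of_nonneg_left (le_mul_of_one_le_right h6 h5) hθ.le
        have h5 : 0 ≤ θ * (g1 θ + g2) := by
          have h7 : 0 ≤ g1 θ := by rw [hg1]; positivity
          have h8 : 0 ≤ g2 := by rw [hg2]; positivity
          exact mul_nonneg hθ.le (add_nonneg h7 h8)
        calc _ ≤ θ * (Real.sqrt n + 1) := h3
          _ ≤ θ * g3 θ := h4
          _ ≤ θ * (g1 θ + g2) + θ * g3 θ := by linarith
          _ = _ := by ring) x
  refine h.trans ?_
  have e1 : ∫ θ in (0:ℝ)..(δ * Real.sqrt n), g1 θ + g2 + g3 θ =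
      (∫ θ in (0:ℝ)..(δ * Real.sqrt n), g1 θ) + g2 * (δ * Real.sqrt n) +
        ∫ θ in (0:ℝ)..(δ * Real.sqrt n), g3 θ := by
    rw [intervalIntegral.integral_add (Continuous.intervalIntegrable (by fun_prop) _ _)
      (c3.intervalIntegrable _ _), intervalIntegral.integral_add (c1.intervalIntegrable _ _)
      intervalIntegrable_const, intervalIntegral.integral_const, smul_eq_mul, sub_zero]
    ring
  have e2 : ∫ θ in (0:ℝ)..(δ * Real.sqrt n), g1 θ ≤ C * K / Real.sqrt n := by
    rw [hg1, intervalIntegral.integral_const_mul]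
    have h1 := hKT (δ * Real.sqrt n) hT.le
    calc _ ≤ C / Real.sqrt n * K := mul_le_mul_of_nonneg_left h1 (by positivity)
      _ = _ := by ring
  have e3 : g2 * (δ * Real.sqrt n) ≤ C * δ * K₂ / Real.sqrt n := by
    have h1 := hK₂ n
    have h2 : g2 * (δ * Real.sqrt n) = C * δ * ((n : ℝ) ^ 3 * (2 / 3) ^ n) / Real.sqrt n := by
      rw [hg2]
      have h3 : (n : ℝ) ^ 3 = (n : ℝ) ^ 2 * (Real.sqrt n * Real.sqrt n) := by rw [hsq]; ring
      rw [h3]
      field_simp
    rw [h2]
    gcongr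
  have e4 : ∫ θ in (0:ℝ)..(δ * Real.sqrt n), g3 θ ≤ 2 * Real.exp 1 / Real.sqrt n := by
    rw [hg3, intervalIntegral.integral_const_mul]
    have h1 := exp_int (c := (n : ℝ) ^ 2) (T := δ * Real.sqrt n) (by positivity)
    calc (Real.sqrt n + 1) * ∫ θ in (0:ℝ)..(δ * Real.sqrt n), Real.exp (1 - (n : ℝ) ^ 2 * θ)
        ≤ (Real.sqrt n + 1) * (Real.exp 1 / (n : ℝ) ^ 2) :=
          mul_le_mul_of_nonneg_left h1 (by positivity)
      _ ≤ 2 * Real.exp 1 / Real.sqrt n := by
          rw [← mul_div_assoc, div_le_div_iff₀ (by positivity) hs]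
          have h2 : (Real.sqrt n + 1) * Real.sqrt n ≤ 2 * (n : ℝ) ^ 2 := by
            have h3 : (Real.sqrt n + 1) * Real.sqrt n ≤ 2 * (n : ℝ) := by nlinarith
            have h4 : (n : ℝ) ≤ (n : ℝ) ^ 2 := by nlinarith
            linarith
          have h3 := Real.exp_pos 1
          calc (Real.sqrt n + 1) * Real.exp 1 * Real.sqrt n =
                Real.exp 1 * ((Real.sqrt n + 1) * Real.sqrt n) := by ring
            _ ≤ Real.exp 1 * (2 * (n : ℝ) ^ 2) := mul_le_mul_of_nonneg_left h2 h3.le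
            _ = _ := by ring
  have e5 : A / (δ * Real.sqrt n) = A / δ / Real.sqrt n := by rw [div_div]
  rw [e1, e5]
  calc _ ≤ C₁ * (C * K / Real.sqrt n + C * δ * K₂ / Real.sqrt n + 2 * Real.exp 1 / Real.sqrt n +
        A / δ / Real.sqrt n) := by gcongr
    _ = _ := by ring

/-! ### The lower bound -/

theorem lower : ∃ c : ℝ, 0 < c ∧ ∀ n : ℕ, 1 ≤ n → ∃ x : ℝ,
    c / Real.sqrt n ≤ |df (law n) x - df (nu vv) x| := by
  have hv := vv_pos
  have hd := den_pos hv 2
  refine ⟨den vv 2 / 4, by positivity, fun n hn => ?_⟩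
  have hn0 : (0 : ℝ) < n := by exact_mod_cast hn
  have hn1 : (1 : ℝ) ≤ n := by exact_mod_cast hn
  have hs : 0 < Real.sqrt n := Real.sqrt_pos.2 hn0
  have hs1 : 1 ≤ Real.sqrt n := Real.one_le_sqrt.2 hn1
  set k : ℤ := ⌈(3 - Real.exp 1) * (n : ℝ)⌉ with hk
  have hk1 : (3 - Real.exp 1) * (n : ℝ) ≤ k := Int.le_ceil _
  have hk2 : (k : ℝ) < (3 - Real.exp 1) * (n : ℝ) + 1 := Int.ceil_lt_add_one _
  set x : ℝ := ((k : ℝ) - (3 - Real.exp 1) * (n : ℝ)) / Real.sqrt n with hx
  set y : ℝ := ((k : ℝ) + 1 / 2 - (3 - Real.exp 1) * (n : ℝ)) / Real.sqrt n with hy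
  have hx0 : 0 ≤ x := div_nonneg (by linarith) hs.le
  have hxy : y - x = 1 / 2 / Real.sqrt n := by
    rw [hx, hy, ← sub_div]
    congr 1
    ring
  have hxy' : x ≤ y := by
    have : 0 ≤ 1 / 2 / Real.sqrt n := by positivity
    linarith
  have hy2 : y ≤ 2 := by
    rw [hy, div_le_iff₀ hs]
    nlinarith
  have hF : df (law n) y = df (law n) x := by
    unfold law
    rw [un_df, un_df]
    congr 3
    ext σ
    have key : Y n σ ≤ y ↔ Y n σ ≤ x := by
      unfold Y
      rw [hx, hy, div_le_div_iff_of_pos_right hs, div_le_div_iff_of_pos_right hs]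
      constructor
      · intro h
        have h1 : ((des (srt σ) : ℤ) + 1 : ℤ) < k + 1 := by
          have h2 : ((des (srt σ) : ℝ) + 1) < (k : ℝ) + 1 := by linarith
          exact_mod_cast h2
        have h3 : ((des (srt σ) : ℤ) + 1 : ℤ) ≤ k := by omega
        have h4 : ((des (srt σ) : ℝ) + 1) ≤ (k : ℝ) := by exact_mod_cast h3
        linarith
      · intro h
        linarith
    rw [Finset.mem_filter, Finset.mem_filter, key]
  have hG := df_nu_lower hv hx0 hxy' hy2
  rw [hxy] at hG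
  by_contra hcon
  push Not at hcon
  have h1 := hcon x
  have h2 := hcon y
  rw [hF] at h2
  have h3 := (abs_lt.1 h1).2
  have h4 := (abs_lt.1 h2).1
  have h5 : den vv 2 * (1 / 2 / Real.sqrt n) = den vv 2 / 4 / Real.sqrt n +
      den vv 2 / 4 / Real.sqrt n := by ring
  have h6 := (abs_lt.1 h1).1
  have h7 := (abs_lt.1 h2).2
  linarith

end Pool.Agent.Y833.BE
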